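import Pool.Agent.H380.AG.Stm
import Mathlib

/-!
# Moments of the cosine with the weight `sin ^ (n - 3)`
-/

set_option autoImplicit false

namespace Pool.Agent.H639.AG

open Pool.Agent.W778.AG Pool.Agent.H380.AG MeasureTheory

/-- `∫ cos^j sin^m` -/
noncomputable def J (m j : ℕ) : ℝ := ∫ φ in (0 : ℝ)..Real.pi, Real.cos φ ^ j * Real.sin φ ^ m

theorem J_odd (m j : ℕ) (hj : Odd j) : J m j = 0 := by
  have h : J m j = ∫ φ in (0 : ℝ)..Real.pi, Real.cos (Real.pi - φ) ^ j * Real.sin (Real.pi - φ) ^ m := by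
    rw [intervalIntegral.integral_comp_sub_left (fun φ => Real.cos φ ^ j * Real.sin φ ^ m) Real.pi]
    simp [J]
  have h2 : (∫ φ in (0 : ℝ)..Real.pi, Real.cos (Real.pi - φ) ^ j * Real.sin (Real.pi - φ) ^ m) = - J m j := by
    rw [J, ← intervalIntegral.integral_neg]
    congr 1
    funext φ
    rw [Real.cos_pi_sub, Real.sin_pi_sub, hj.neg_pow]
    ring
  linarith [h.trans h2]

theorem J_pos (m j : ℕ) : 0 < J m (2 * j) := by
  unfold J
  apply intervalIntegral.integral_pos Real.pi_pos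
  · exact ((Real.continuous_cos.pow _).mul (Real.continuous_sin.pow _)).continuousOn
  · intro x hx
    have hs : 0 ≤ Real.sin x := Real.sin_nonneg_of_nonneg_of_le_pi hx.1.le hx.2
    rw [pow_mul]
    positivity
  · refine ⟨Real.pi / 4, ⟨by positivity, by linarith [Real.pi_pos]⟩, ?_⟩
    rw [Real.cos_pi_div_four, Real.sin_pi_div_four]
    positivity

theorem J_rec (m j : ℕ) : ((m : ℝ) + j + 2) * J m (j + 2) = ((j : ℝ) + 1) * J m j := by
  have hd : ∀ x ∈ Set.uIcc 0 Real.pi, HasDerivAt (fun φ : ℝ => Real.cos φ ^ (j + 1) * Real.sin φ ^ (m + 1))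
      (((m : ℝ) + j + 2) * (Real.cos x ^ (j + 2) * Real.sin x ^ m) -
        ((j : ℝ) + 1) * (Real.cos x ^ j * Real.sin x ^ m)) x := by
    intro x _
    have h := ((Real.hasDerivAt_cos x).pow (j + 1)).mul ((Real.hasDerivAt_sin x).pow (m + 1))
    refine HasDerivAt.congr_deriv h ?_
    rw [Nat.add_sub_cancel, Nat.add_sub_cancel, Pi.pow_apply, Pi.pow_apply]
    push_cast
    have hs : Real.sin x ^ (m + 1) * Real.sin x = (1 - Real.cos x ^ 2) * Real.sin x ^ m := by
      rw [← Real.sin_sq]; ring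
    have e1 : (((j : ℝ) + 1) * Real.cos x ^ j * -Real.sin x) * Real.sin x ^ (m + 1) =
        -(((j : ℝ) + 1) * Real.cos x ^ j * ((1 - Real.cos x ^ 2) * Real.sin x ^ m)) := by
      rw [← hs]; ring
    rw [e1]
    ring
  have hi : IntervalIntegrable (fun x : ℝ => ((m : ℝ) + j + 2) * (Real.cos x ^ (j + 2) * Real.sin x ^ m) -
        ((j : ℝ) + 1) * (Real.cos x ^ j * Real.sin x ^ m)) volume 0 Real.pi := by
    apply Continuous.intervalIntegrable
    fun_prop
  have h := intervalIntegral.integral_eq_sub_of_hasDerivAt hd hi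
  rw [intervalIntegral.integral_sub, intervalIntegral.integral_const_mul,
    intervalIntegral.integral_const_mul] at h
  · simp only [Real.sin_pi, Real.sin_zero] at h
    rw [zero_pow (Nat.succ_ne_zero m), mul_zero, mul_zero, sub_zero] at h
    unfold J
    linarith
  · apply Continuous.intervalIntegrable; fun_prop
  · apply Continuous.intervalIntegrable; fun_prop

theorem mom_eq (n j : ℕ) : mom n j = J (n - 3) j / J (n - 3) 0 := by
  simp [mom, Pool.Agent.W778.AG.LE, J]

theorem t_MOM : S_MOM := by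
  intro n hn
  have h0 : 0 < J (n - 3) 0 := by simpa using J_pos (n - 3) 0
  refine ⟨fun j hj => by rw [mom_eq, J_odd _ _ hj, zero_div], fun j => ?_, ?_, fun j => ?_⟩
  · rw [mom_eq]; exact div_pos (J_pos _ _) h0
  · rw [mom_eq, div_self h0.ne']
  · rw [mom_eq, mom_eq]
    have h := J_rec (n - 3) j
    have hc : (((n - 3 : ℕ) : ℝ)) + j + 2 = (n : ℝ) + j - 1 := by
      rw [Nat.cast_sub hn]; push_cast; ring
    rw [hc] at h
    have hp : 0 < (n : ℝ) + j - 1 := by
      have h1 : (3 : ℝ) ≤ n := by exact_mod_cast hn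
      have h2 : (0 : ℝ) ≤ j := Nat.cast_nonneg j
      linarith
    rw [div_mul_div_comm, div_eq_div_iff h0.ne' (mul_pos hp h0).ne']
    linear_combination (J (n - 3) 0) * h

end Pool.Agent.H639.AG
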